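import Pool.Agent.Lib.MP_ddf912_lc.AC.Main

namespace Pool.Agent.Results.MP_ddf912_lc.ConstDepth

open Pool.Agent.Lib.MP_ddf912_lc.AC

theorem result (c k : ℕ) (hk : 512 * (c + 3) < k) (D d g f : ℕ) :
    ∃ N₀ : ℕ, ∀ N ≥ N₀, ∀ C : Circuit (Fin N × Fin N), (∀ i, C.level i ≤ D) →
      C.n + C.m + C.M ≤ f * N ^ c → ¬ C.Decides k d g :=
  main c k hk D d g f

end Pool.Agent.Results.MP_ddf912_lc.ConstDepth
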