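import Pool.Agent.Lib.MP_ddf912_lc.Neg.Main

namespace Pool.Agent.Results.MP_ddf912_lc.FewNegations

open Pool.Agent.Lib.MP_ddf912_lc.Neg

theorem result (ε : ℝ) (hε : 0 < ε) (hε' : ε ≤ 1) (c k : ℕ)
    (hk : 560 * ((c : ℝ) + 1) ≤ ε ^ 2 * k) (d g f : ℕ) :
    ∃ N₀ : ℕ, ∀ N ≥ N₀, ∀ C : Circuit (Fin N × Fin N), C.n + C.m + C.M ≤ f * N ^ c →
      (C.negs : ℝ) ≤ (2 - ε) * Real.logb 2 N → ¬ C.Decides k d g := by
  have h1 : 1 / ε ≤ (⌈1 / ε⌉₊ : ℝ) := Nat.le_ceil _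
  have h2 : (⌈1 / ε⌉₊ : ℝ) < 1 / ε + 1 := Nat.ceil_lt_add_one (by positivity)
  have h0 : 1 ≤ ⌈1 / ε⌉₊ := Nat.ceil_pos.mpr (by positivity)
  generalize ⌈1 / ε⌉₊ = σ at h0 h1 h2
  rw [div_le_iff₀ hε] at h1
  have h3 : (σ : ℝ) * ε ≤ 2 := by
    have := mul_lt_mul_of_pos_right h2 hε
    rw [add_mul, one_div, inv_mul_cancel₀ hε.ne'] at this
    linarith
  obtain ⟨N₀, h⟩ := main σ c k h0 (by
    have h4 : ((σ : ℝ) * ε) ^ 2 ≤ 2 ^ 2 := pow_le_pow_left₀ (by positivity) h3 2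
    have h5 : ε ^ 2 * (140 * (σ : ℝ) ^ 2 * (c + 1)) ≤ ε ^ 2 * k := by
      have := mul_le_mul_of_nonneg_right h4 (show (0 : ℝ) ≤ 140 * (c + 1) by positivity)
      nlinarith
    exact_mod_cast le_of_mul_le_mul_left h5 (by positivity)) d g f
  refine ⟨N₀ + 1, fun N hN C hS hn => h N (by omega) C hS ?_⟩
  have h4 : (1 : ℝ) ≤ N := by exact_mod_cast (show 1 ≤ N by omega)
  have h5 : 0 ≤ Real.logb 2 N := Real.logb_nonneg (by norm_num) h4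
  have h6 : ((C.negs * σ : ℕ) : ℝ) ≤ Real.logb 2 ((N : ℝ) ^ (2 * σ - 1)) := by
    rw [Real.logb_pow, Nat.cast_sub (by omega)]
    push_cast
    have := mul_le_mul_of_nonneg_right hn (Nat.cast_nonneg (α := ℝ) σ)
    nlinarith [mul_le_mul_of_nonneg_right h1 h5]
  rw [Real.le_logb_iff_rpow_le (by norm_num) (by positivity), Real.rpow_natCast] at h6
  rw [← pow_mul]
  exact_mod_cast h6

end Pool.Agent.Results.MP_ddf912_lc.FewNegations
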