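import Pool.Agent.Lib.MP_ddf912_lc.Rel.StageA
import Pool.Agent.Lib.MP_ddf912_lc.Rel.Easy

namespace Pool.Agent.Results.MP_ddf912_lc.OracleApart

open Pool.Agent.Lib.MP_ddf912_lc.Rel

/-- There is an oracle relative to which `FPT = M[1]` while `FPT` is a proper subclass
of `W[1]`. -/
theorem result : ∃ A : Set (List Bool), M1O A = FPTO A ∧ FPTO A ⊂ W1O A := by
  obtain ⟨A, h1, h2⟩ := worldA
  exact ⟨A, h1.antisymm (FPTO_subset_M1O A), FPTO_subset_W1O A, h2⟩

end Pool.Agent.Results.MP_ddf912_lc.OracleApart
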