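import Pool.Agent.Lib.MP_ddf912_lc.Pig.Main

namespace Pool.Agent.Results.MP_ddf912_lc.Pigeonhole

open Pool.Agent.Lib.MP_ddf912_lc

theorem result (d : ℕ) (hd : 2 ≤ d) (h : Below (pLogSat (d + 1)) ⊆ Below (pLogSat d)) :
    Below (pLogSat (d + 1)) ⊆ FptPigeon :=
  Pig.levels hd h

end Pool.Agent.Results.MP_ddf912_lc.Pigeonhole
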